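import Pool.Agent.helper77.BND.Defs
import Pool.Agent.helper72.PV.DefsH

/-!
# Project bnd (MP_376aaf_an), blocks H and L: the axiom for rank one, the statement of existence

`IsB1`: on every level `m` there is a set `G m` of bands (the bands of a basis of the group `Λ_m`); the end words of the
other bands are permutations of each other (commutation bands);
(`bas`) the end words of the bands of `G m` can be separated by integer valued functions of the vertices, and
(`lft`) logarithms: let `(lam, nn)` be logarithmic data on the level `m` (`IsLog`: `lam e` is continuous on `[0, 1]`, equal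
to the sum over the first end word at `0` and to the sum over the second end word, up to `2 π i nn e`, at `1`) with
`nn e = 0` on `G m`. Then `exp (sw lam (w m e' s))` is the exponential of logarithmic data `(Lam, nn')` on the level
`m + 1`, with `Lam v 0 = sw lam (w m v 0)` at the vertices and `nn' e' = 0` outside `G (m + 1)`.
-/

set_option autoImplicit false

open scoped Topology
open Finset

namespace Pool.Agent.BND

/-- logarithmic data on a level: continuous, constant on vertices, `lam e 0 = ∑` over the first end word,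
`lam e 1 = ∑` over the second end word, up to `2 π i nn e` -/
structure IsLog (l : Lv) (lam : ℕ → ℝ → ℂ) (nn : ℕ → ℤ) : Prop where
  cts : ∀ e, e < l.N → ContinuousOn (lam e) U
  vtx : ∀ e, e < l.n → ∀ s, lam e s = lam e 0
  at0 : ∀ e, e < l.N → lam e 0 = ((l.W e false).map fun v => lam v 0).sum
  at1 : ∀ e, e < l.N → lam e 1 = ((l.W e true).map fun v => lam v 0).sum + 2 * Real.pi * Complex.I * (nn e : ℂ)

/-- the axioms for rank one; `G m` are the bands of a basis of `Λ_m` -/
structure IsB1 (B : BS) (G : ℕ → Set ℕ) : Prop where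
  bnd : ∀ m, ∀ e ∈ G m, (B.L m).n ≤ e ∧ e < (B.L m).N
  prm : ∀ m e, e < (B.L m).N → e ∉ G m → ((B.L m).W e true).Perm ((B.L m).W e false)
  bas : ∀ m (nn : ℕ → ℤ), ∃ z : ℕ → ℤ, ∀ e ∈ G m,
    (((B.L m).W e true).map z).sum - (((B.L m).W e false).map z).sum = nn e
  lft : ∀ m (lam : ℕ → ℝ → ℂ) (nn : ℕ → ℤ), IsLog (B.L m) lam nn → (∀ e ∈ G m, nn e = 0) →
    ∃ (Lam : ℕ → ℝ → ℂ) (nn' : ℕ → ℤ), IsLog (B.L (m + 1)) Lam nn' ∧
      (∀ e', e' < (B.L (m + 1)).N → e' ∉ G (m + 1) → nn' e' = 0) ∧
      (∀ v, v < (B.L (m + 1)).n → Lam v 0 = sw lam (B.w m v 0)) ∧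
      ∀ e', e' < (B.L (m + 1)).N → ∀ s ∈ U,
        Complex.exp (Lam e' s) = Complex.exp (sw lam (B.w m e' s))

/-- `H'` has rank at most one: any two elements are dependent -/
def RkOne {H : Type} [AddCommGroup H] (H' : AddSubgroup H) : Prop :=
  ∀ x ∈ H', ∀ y ∈ H', ∃ a b : ℤ, (a ≠ 0 ∨ b ≠ 0) ∧ a • x = b • y

/-- **HEX**: existence of the band systems -/
def HEX_stmt : Prop :=
  ∀ (H : Type) [AddCommGroup H] [Countable H] (P : H → Prop) (g : H), PVH.SOG P g →
    ∀ H' : AddSubgroup H, g ∈ H' → (∀ (n : ℕ) (x : H), 1 ≤ n → n • x ∈ H' → x ∈ H') →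
      ∃ (B : BS) (M : ℕ → ℕ → ℕ → ℕ) (th : ℕ → ℕ → H),
        IsBS B M ∧ IsTh B M P g th H' ∧ (RkOne H' → ∃ G, IsB1 B G)

end Pool.Agent.BND
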