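import Pool.Agent.helper62.PV.STN
import Pool.Agent.helper62.PV.STP
import Pool.Agent.helper43.PV.SHD
import Pool.Agent.helper83.PV.SHC
import Pool.Agent.helper43.PV.SHS
import Pool.Agent.helper43.PV.RDC
import Pool.Agent.helper43.PV.SHX
import Pool.Agent.helper43.PV.SHG
import Pool.Agent.helper62.PV.MIX
import Pool.Agent.helper62.PV.LOW
import Pool.Agent.helper11.BNH.NPR
import Pool.Agent.helper14.BNH.FCM
import Pool.Agent.helper15.BNH.EXW
import Pool.Agent.helper15.BNH.JEX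
import Pool.Agent.helper17.BNH.BP1
import Pool.Agent.helper18.BNH.STG
import Pool.Agent.helper2.BNH.RowCON
import Pool.Agent.helper20.BNH.FBM
import Pool.Agent.helper20.BNH.PDC
import Pool.Agent.helper23.BNH.FLP
import Pool.Agent.helper24.BNH.PH1
import Pool.Agent.helper25.BNH.GDX
import Pool.Agent.helper26.BNH.FWB
import Pool.Agent.helper27.BNH.FWE
import Pool.Agent.helper27.BNH.SQH
import Pool.Agent.helper29.BNH.LTR
import Pool.Agent.helper3.BNH.PCM
import Pool.Agent.helper31.BNH.PSY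
import Pool.Agent.helper32.BNH.FCS
import Pool.Agent.helper34.BNH.BPT
import Pool.Agent.helper39.BNH.DLF
import Pool.Agent.helper49.BNH.PTR
import Pool.Agent.helper52.BNH.LAT
import Pool.Agent.helper52.BNH.RK1
import Pool.Agent.helper53.BNH.KIL
import Pool.Agent.helper53.BNH.VWC
import Pool.Agent.helper54.BNH.CVF
import Pool.Agent.helper56.BNH.BSS
import Pool.Agent.helper56.BNH.CMN
import Pool.Agent.helper56.BNH.FWC
import Pool.Agent.helper57.BNH.GLV
import Pool.Agent.helper59.BNH.FWD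
import Pool.Agent.helper59.BNH.STA
import Pool.Agent.helper6.BNH.BDN
import Pool.Agent.helper64.BNH.FWA
import Pool.Agent.helper68.BNH.PRF
import Pool.Agent.helper70.BNH.FWF
import Pool.Agent.helper70.BNH.STE
import Pool.Agent.helper72.BNH.EMC
import Pool.Agent.helper72.BNH.SWE
import Pool.Agent.helper74.BNH.BAS
import Pool.Agent.helper78.BNH.CAT
import Pool.Agent.helper83.BNH.PSL
import Pool.Agent.helper9.BNH.LPA
import Pool.Agent.helper90.BNH.MKL
import Pool.Agent.helper93.BNH.THS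
import Pool.Agent.helper98.BNH.WDC

/-!
# Project BND (MP_376aaf_an), block H: band systems exist (all rows, no hypotheses)
-/

set_option autoImplicit false

namespace Pool.Agent.BND.EX

open Finset

theorem a_STN : PVH.STN_stmt := PVH.STN (PVH.STP (PVH.SHD (PVH.SHC (PVH.SHS PVH.RDC PVH.SHX PVH.SHG))) (PVH.MIX PVH.LOW))

theorem a_STG : STG_stmt := STG a_STN

theorem a_LAT : LAT_stmt := LAT

theorem a_RK1 : RK1_stmt := RK1

theorem a_LTR : LTR_stmt := LTR

theorem a_GLV : GLV_stmt := GLV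

theorem a_WDC : WDC_stmt := WDC

theorem a_MKL : MKL_stmt := MKL a_WDC

theorem a_EMC : EMC_stmt := EMC

theorem a_BDN : BDN_stmt := BDN a_WDC a_MKL

theorem a_BAS : BAS_stmt := BAS a_WDC a_MKL

theorem a_PRF : PRF_stmt := PRF

theorem a_PSY : PSY_stmt := PSY

theorem a_PTR : PTR_stmt := PTR

theorem a_PSL : PSL_stmt := PSL

theorem a_PDC : PDC_stmt := PDC a_PSL a_PTR a_PRF

theorem a_NPR : NPR_stmt := NPR

theorem a_PCM : PCM_stmt := PCM a_MKL a_PSL a_PTR a_PSY a_PRF a_NPR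

theorem a_LPA : LPA_stmt := LPA

theorem a_DLF : DLF_stmt := DLF

theorem a_SWE : SWE_stmt := SWE

theorem a_CVF : CVF_stmt := CVF

theorem a_VWC : VWC_stmt := VWC a_MKL a_WDC a_DLF a_CVF a_SWE

theorem a_CAT : CAT_stmt := CAT

theorem a_GDX : GDX_stmt := GDX a_MKL a_DLF a_CVF

theorem a_FCM : FCM_stmt := FCM a_GDX a_PCM a_MKL

theorem a_FBM : FBM_stmt := FBM a_GDX a_PSL a_MKL

theorem a_FCS : FCS_stmt := FCS a_FCM a_FBM a_MKL a_WDC a_PTR

theorem a_CON : CON_stmt := CON a_FCM a_FCS a_LPA a_WDC a_PTR a_PSY a_MKL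

theorem a_FLP : FLP_stmt := FLP a_FCM a_FBM a_MKL a_WDC a_NPR a_PTR a_PSY a_PRF

theorem a_KIL : KIL_stmt := KIL a_FLP a_GDX a_PTR a_PSY a_PRF

theorem a_PH1 : PH1_stmt := PH1 a_CAT a_VWC a_CVF a_DLF a_MKL a_PDC a_PTR a_PRF

theorem a_BPT : BPT_stmt := BPT a_PH1 a_CON a_VWC a_PTR a_PSY a_PRF

theorem a_BP1 : BP1_stmt := BP1 a_PH1 a_FCM a_KIL a_NPR a_VWC a_PTR a_PSY a_PRF

theorem a_JEX : JEX_stmt := JEX

theorem a_EXW : EXW_stmt := EXW a_BPT a_BP1 a_MKL a_WDC a_PRF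

theorem a_FWA : FWA_stmt := FWA a_MKL a_VWC a_SWE a_DLF a_CVF

theorem a_FWB : FWB_stmt := FWB a_FWA a_MKL

theorem a_FWC : FWC_stmt := FWC a_MKL

theorem a_FWD : FWD_stmt := FWD a_MKL a_VWC a_SWE a_FWA

theorem a_FWE : FWE_stmt := FWE a_FWA a_FWD a_SWE a_MKL

theorem a_FWF : FWF_stmt := FWF a_MKL

theorem a_CMN : CMN_stmt := CMN a_FWA a_FWB a_MKL

theorem a_STE : STE_stmt := STE a_STG a_LAT a_RK1 a_LTR a_GLV a_MKL a_EMC a_JEX a_DLF a_EXW a_FWA a_FWB a_FWC a_FWD a_FWE a_FWF a_CMN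

theorem a_STA : STA_stmt := STA a_GLV a_MKL a_EMC a_LAT

theorem a_SQH : SQH_stmt := SQH a_STA a_STE

theorem a_BSS : BSS_stmt := BSS a_MKL a_EMC

theorem a_THS : THS_stmt := THS a_MKL a_BDN a_BAS

/-- **Existence of band systems** (block H, closed) -/
theorem a_HEX : HEX_stmt := by
  intro H _ _ P g hS H' hg hp
  obtain ⟨σ, M, w, S, h1, h2, h3⟩ := a_SQH H P g hS H' hg hp
  exact ⟨⟨fun m => (σ m).A.l, w, S⟩, M, fun m => (σ m).th, a_BSS H P g H' (RkOne H') σ M w S h1 h2,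
    (a_THS H P g H' σ M w S h1 h2 h3).1, (a_THS H P g H' σ M w S h1 h2 h3).2⟩

end Pool.Agent.BND.EX
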