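import Pool.Agent.helper70.BND.DefsH

/-!
# Project bnd (MP_376aaf_an), block H: paths of words, levels, states. Definitions and small lemmas for free use

Letters of a level are pairs `(e, s)`; the vertices in our words are `(v, 0)`. `PdW l Q w w' d vs γ`: `γ` is a path of words
with continuous floors from the word `w` to the word `w'`, in the set `Q`, visiting the letters in `vs`; `d e` is the number of
times it runs through the band `e` (the defect of logarithms).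
-/

set_option autoImplicit false

open scoped Topology
open Finset

namespace Pool.Agent.BND.EX

/-! ## Words -/

/-- vertices as letters -/
def vw (u : List ℕ) : List (ℕ × ℝ) := u.map fun v => (v, 0)

/-- the word with `x v` letters `v` for `v < n` -/
def wd (n : ℕ) (x : ℕ → ℕ) : List ℕ := (List.range n).flatMap fun v => List.replicate (x v) v

@[simp] theorem hw_nil (h : ℕ → ℕ) : hw h [] = 0 := rfl

@[simp] theorem hw_cons (h : ℕ → ℕ) (a : ℕ × ℝ) (w : List (ℕ × ℝ)) : hw h (a :: w) = h a.1 + hw h w := by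
  simp [hw]

@[simp] theorem hw_append (h : ℕ → ℕ) (u w : List (ℕ × ℝ)) : hw h (u ++ w) = hw h u + hw h w := by
  simp [hw]

@[simp] theorem sw_nil {Z : Type} [AddCommMonoid Z] (σ : ℕ → ℝ → Z) : sw σ [] = 0 := rfl

@[simp] theorem sw_cons {Z : Type} [AddCommMonoid Z] (σ : ℕ → ℝ → Z) (a : ℕ × ℝ) (w : List (ℕ × ℝ)) :
    sw σ (a :: w) = σ a.1 a.2 + sw σ w := by
  simp [sw]

@[simp] theorem sw_append {Z : Type} [AddCommMonoid Z] (σ : ℕ → ℝ → Z) (u w : List (ℕ × ℝ)) :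
    sw σ (u ++ w) = sw σ u + sw σ w := by
  simp [sw]

@[simp] theorem vw_nil : vw [] = [] := rfl

@[simp] theorem vw_cons (v : ℕ) (u : List ℕ) : vw (v :: u) = (v, 0) :: vw u := rfl

@[simp] theorem vw_append (u v : List ℕ) : vw (u ++ v) = vw u ++ vw v := by
  simp [vw]

theorem hw_vw (h : ℕ → ℕ) (u : List ℕ) : hw h (vw u) = (u.map h).sum := by
  induction u with
  | nil => rfl
  | cons v u ih => simp [ih]

theorem sw_vw {Z : Type} [AddCommMonoid Z] (σ : ℕ → ℝ → Z) (u : List ℕ) : sw σ (vw u) = (u.map fun v => σ v 0).sum := by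
  induction u with
  | nil => rfl
  | cons v u ih => simp [ih]

/-- floors of a concatenation, first part -/
theorem fw_append_left {Z : Type} [Zero Z] (h : ℕ → ℕ) (Φ : ℕ → ℝ → ℕ → Z) (u w : List (ℕ × ℝ)) (i : ℕ)
    (hi : i < hw h u) : fw h Φ (u ++ w) i = fw h Φ u i := by
  induction u generalizing i with
  | nil => simp at hi
  | cons a u ih =>
    rw [hw_cons] at hi
    simp only [List.cons_append, fw]
    split_ifs with h1
    · rfl
    · exact ih _ (by omega)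

/-- floors of a concatenation, second part -/
theorem fw_append_right {Z : Type} [Zero Z] (h : ℕ → ℕ) (Φ : ℕ → ℝ → ℕ → Z) (u w : List (ℕ × ℝ)) (i : ℕ)
    (hi : hw h u ≤ i) : fw h Φ (u ++ w) i = fw h Φ w (i - hw h u) := by
  induction u generalizing i with
  | nil => simp
  | cons a u ih =>
    rw [hw_cons] at hi
    simp only [List.cons_append, fw]
    rw [if_neg (by omega), ih _ (by omega), hw_cons]
    congr 1
    omega

/-! ## Compatible families of floors, paths of words -/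

/-- a compatible family of floors: `Φ e s i` is continuous in `s`, does not depend on `s` at the vertices, is given by the end
words at the ends of the bands, and has finitely many coordinates -/
structure Cmp (l : Lv) (Φ : ℕ → ℝ → ℕ → Am) : Prop where
  cts : ∀ e i, e < l.N → i < l.h e → ContinuousOn (fun s => Φ e s i) U
  vtx : ∀ e s i, e < l.n → Φ e s i = Φ e 0 i
  at0 : ∀ e i, e < l.N → i < l.h e → Φ e 0 i = fw l.h Φ (vw (l.W e false)) i
  at1 : ∀ e i, e < l.N → i < l.h e → Φ e 1 i = fw l.h Φ (vw (l.W e true)) i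
  fin : ∃ F : Finset (ℕ × ℕ), ∀ e s i c, e < l.N → s ∈ U → i < l.h e → c ∉ F → Φ e s i c = 0

/-- `γ` is a path of words from `w` to `w'` in `Q`, with degrees `d`, visiting `vs` -/
structure PdW (l : Lv) (Q : List (ℕ × ℝ) → Prop) (w w' : List (ℕ × ℝ)) (d : ℕ → ℤ) (vs : Set (ℕ × ℝ))
    (γ : ℝ → List (ℕ × ℝ)) : Prop where
  q : ∀ s ∈ U, Q (γ s)
  ht : ∀ s ∈ U, hw l.h (γ s) = hw l.h w
  ht' : hw l.h w' = hw l.h w
  cts : ∀ Φ, Cmp l Φ → ∀ i, i < hw l.h w → ContinuousOn (fun s => fw l.h Φ (γ s) i) U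
  at0 : ∀ Φ, Cmp l Φ → ∀ i, i < hw l.h w → fw l.h Φ (γ 0) i = fw l.h Φ w i
  at1 : ∀ Φ, Cmp l Φ → ∀ i, i < hw l.h w → fw l.h Φ (γ 1) i = fw l.h Φ w' i
  vis : ∀ a ∈ vs, ∃ s ∈ U, a ∈ γ s
  lg : ∀ (lam : ℕ → ℝ → ℂ) (nn : ℕ → ℤ), IsLog l lam nn → ∃ Lam : ℝ → ℂ, ContinuousOn Lam U ∧
    (∀ s ∈ U, Complex.exp (Lam s) = Complex.exp (sw lam (γ s))) ∧ Lam 0 = sw lam w ∧
    Lam 1 = sw lam w' + 2 * Real.pi * Complex.I * ((∑ e ∈ range l.N, d e * nn e : ℤ) : ℂ)

/-- there is a path -/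
def Pd (l : Lv) (Q : List (ℕ × ℝ) → Prop) (w w' : List (ℕ × ℝ)) (d : ℕ → ℤ) (vs : Set (ℕ × ℝ)) : Prop :=
  ∃ γ, PdW l Q w w' d vs γ

/-! ## The levels -/

/-- the end words of the letters `e < n + n² + k`: vertices `e < n`; commutation bands `(a b, b a)`,
`e = n + a n + b`; the bands `(w_c^-, w_c^+)`, `c = c 0, ..., c (k - 1)` -/
def Wd (n : ℕ) (c : ℕ → ℕ → ℤ) (e : ℕ) (b : Bool) : List ℕ :=
  if e < n then [e] else
  if e < n + n * n then (if b then [(e - n) % n, (e - n) / n] else [(e - n) / n, (e - n) % n]) else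
  wd n fun v => if b then (c (e - (n + n * n)) v).toNat else (-(c (e - (n + n * n)) v)).toNat

/-- level data: number of vertices, heights, number of basis elements, basis elements -/
structure LD where
  n : ℕ
  h : ℕ → ℕ
  k : ℕ
  c : ℕ → ℕ → ℤ

namespace LD

/-- the level with these data -/
def l (A : LD) : Lv where
  n := A.n
  N := A.n + A.n * A.n + A.k
  h := fun e => if e < A.n then A.h e else ((Wd A.n A.c e false).map A.h).sum
  W := Wd A.n A.c

/-- good data: positive heights, the elements `c j` are not zero and orthogonal to the heights -/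
structure Gl (A : LD) : Prop where
  n0 : 0 < A.n
  pos : ∀ v, v < A.n → 0 < A.h v
  ne : ∀ j, j < A.k → ∃ v, v < A.n ∧ A.c j v ≠ 0
  ort : ∀ j, j < A.k → ∑ v ∈ range A.n, A.c j v * A.h v = 0

/-- the band `(a b, b a)` -/
def cb (A : LD) (a b : ℕ) : ℕ := A.n + (a * A.n + b)

/-- the band `(w_c^-, w_c^+)`, `c = c j` -/
def gb (A : LD) (j : ℕ) : ℕ := A.n + A.n * A.n + j

/-- the sum of the absolute values of the coefficients of the basis -/
def cs (A : LD) : ℕ := ∑ j ∈ range A.k, ∑ v ∈ range A.n, (A.c j v).natAbs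

end LD

/-- `c 0, ..., c (k - 1)` is a basis of the annihilator of `{z | ∑ z v • th v ∈ H'}` -/
structure IsLat {H : Type} [AddCommGroup H] (H' : AddSubgroup H) (A : LD) (th : ℕ → H) : Prop where
  mem : ∀ z : ℕ → ℤ, ∑ v ∈ range A.n, z v • th v ∈ H' ↔ ∀ j, j < A.k → ∑ v ∈ range A.n, A.c j v * z v = 0
  bas : ∀ nn : ℕ → ℤ, ∃ z : ℕ → ℤ, ∀ j, j < A.k → ∑ v ∈ range A.n, A.c j v * z v = nn j
  ann : ∀ x : ℕ → ℤ, (∀ z : ℕ → ℤ, ∑ v ∈ range A.n, z v • th v ∈ H' → ∑ v ∈ range A.n, x v * z v = 0) →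
    ∃ a : ℕ → ℤ, ∀ v, v < A.n → x v = ∑ j ∈ range A.k, a j * A.c j v

/-! ## The words of the letters of the next level -/

/-- the decorations: all `(e, j/J)`, `e < N`, `j ≤ J` -/
noncomputable def Dl (N J : ℕ) : List (ℕ × ℝ) :=
  (List.range N).flatMap fun e => (List.range (J + 1)).map fun j => (e, (j : ℝ) / J)

/-- the parameters of the decorations -/
def Sj (J : ℕ) : Set ℝ := {s | ∃ j : ℕ, j ≤ J ∧ s = (j : ℝ) / J}

/-- the decorations, replaced by their first words -/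
noncomputable def D0 (l : Lv) (J : ℕ) : List ℕ := (Dl l.N J).flatMap fun a => l.W a.1 false

/-- the core of the word of a vertex of the next level with the row `M` of the matrix -/
noncomputable def co (l : Lv) (J : ℕ) (M : ℕ → ℕ) : List ℕ := wd l.n fun v => M v - (0 :: 0 :: D0 l J).count v

/-- the word `0 D X 0` -/
noncomputable def FX (l : Lv) (J : ℕ) (X : List ℕ) : List (ℕ × ℝ) := (0, 0) :: (Dl l.N J ++ vw X ++ [(0, 0)])

/-- the word of a vertex of the next level -/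
noncomputable def wv (l : Lv) (J : ℕ) (M : ℕ → ℕ) : List (ℕ × ℝ) := FX l J (co l J M)

/-- the inner part of the concatenation of the words of the vertices `u` (without the first `0 D` and the last `0`) -/
noncomputable def dc (l : Lv) (J : ℕ) (M : ℕ → ℕ → ℕ) : List ℕ → List (ℕ × ℝ)
  | [] => []
  | v :: u => vw (co l J (M v)) ++ u.flatMap fun x => (0, 0) :: (0, 0) :: (Dl l.N J ++ vw (co l J (M x)))

/-- the same with vertices instead of the decorations -/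
noncomputable def ct (l : Lv) (J : ℕ) (M : ℕ → ℕ → ℕ) : List ℕ → List ℕ
  | [] => []
  | v :: u => co l J (M v) ++ u.flatMap fun x => 0 :: 0 :: (D0 l J ++ co l J (M x))

/-- the numbers of the vertices in the concatenation of the words of the vertices `u` -/
def kp (M : ℕ → ℕ → ℕ) (u : List ℕ) (v : ℕ) : ℕ := (u.map fun x => M x v).sum

/-- the number of the vertices `v` in the word `0 D X 0`, bands being counted as their first words -/
noncomputable def fc (l : Lv) (J : ℕ) (X : List ℕ) (v : ℕ) : ℕ := (0 :: (D0 l J ++ X ++ [0])).count v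

/-- the number of the vertices `v` in a word, bands being counted as their first words -/
def cv (l : Lv) (w : List (ℕ × ℝ)) (v : ℕ) : ℕ := (w.flatMap fun a => l.W a.1 false).count v

open Classical in
/-- the height of the letters which are not of the form `(v, 0)`, `v` a vertex -/
noncomputable def nvh (l : Lv) (w : List (ℕ × ℝ)) : ℕ :=
  (w.map fun a => if a.1 < l.n ∧ a.2 = 0 then 0 else l.h a.1).sum

/-- the vector `x` is near the segment between `κ₀` and `κ₁` -/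
def Nr (n : ℕ) (κ₀ κ₁ : ℕ → ℕ) (Cc : ℕ) (x : ℕ → ℤ) : Prop :=
  ∃ r ∈ U, ∀ v, v < n → |(x v : ℝ) - ((1 - r) * κ₀ v + r * κ₁ v)| ≤ Cc

/-- good words: `0 D P x R 0`, all letters except `x` are vertices or have parameters in `Sj J`; the vector of the numbers of
the vertices is near the segment between `κ₀` and `κ₁`; letters which are not vertices have total height at most `Bb` -/
structure Gd (l : Lv) (J : ℕ) (κ₀ κ₁ : ℕ → ℕ) (Cc Bb : ℕ) (w : List (ℕ × ℝ)) : Prop where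
  shp : ∃ P x R, w = (0, 0) :: (Dl l.N J ++ (P ++ x :: R) ++ [(0, 0)]) ∧ ∀ a ∈ P ++ R, a.1 < l.n ∨ a.2 ∈ Sj J
  lett : ∀ a ∈ w, a.1 < l.N ∧ a.2 ∈ U
  nr : Nr l.n κ₀ κ₁ Cc fun v => (cv l w v : ℤ)
  nv : nvh l w ≤ Bb

/-- how large the matrix has to be -/
noncomputable def Nb (m : ℕ) (A : LD) (J : ℕ) : ℕ :=
  2 ^ (m + 1) * (4 * hw A.l.h (Dl A.l.N J) + 2 * A.cs * ∑ v ∈ range A.n, A.h v) + 3 * A.cs + (D0 A.l J).length + m + 10

/-- the number of pairs of positions with the letters `a`, `b` in this order -/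
def npr (a b : ℕ) : List ℕ → ℤ
  | [] => 0
  | x :: Y => (if x = a then (Y.count b : ℤ) else 0) + npr a b Y

/-- the degrees of a path of commutations from `X` to `Y`: on the band `(a b, b a)`, `a < b`, it is the difference of the numbers of
pairs `a .. b`; `0` on all other letters -/
def dI (n : ℕ) (X Y : List ℕ) (e : ℕ) : ℤ :=
  if n ≤ e ∧ e < n + n * n ∧ (e - n) / n < (e - n) % n then
    npr ((e - n) / n) ((e - n) % n) X - npr ((e - n) / n) ((e - n) % n) Y else 0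

/-- the degrees `x ∧ y` of two vectors on the bands `(a b, b a)`, `a < b` -/
def dW (n : ℕ) (x y : ℕ → ℤ) (e : ℕ) : ℤ :=
  if n ≤ e ∧ e < n + n * n ∧ (e - n) / n < (e - n) % n then
    x ((e - n) / n) * y ((e - n) % n) - x ((e - n) % n) * y ((e - n) / n) else 0

/-! ## States and steps -/

/-- the state of the construction: level data, elements of the group, and the list of the families of floors of all levels up to
this one -/
structure Sta (H : Type) where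
  A : LD
  th : ℕ → H
  FL : List (ℕ → ℝ → ℕ → Am)

/-- good states at the level `m` -/
structure IsSta {H : Type} [AddCommGroup H] (P : H → Prop) (g : H) (H' : AddSubgroup H) (m : ℕ) (σ : Sta H) : Prop where
  gl : σ.A.Gl
  big : ∀ v, v < σ.A.n → m + 1 ≤ σ.A.h v
  pos : ∀ v, v < σ.A.n → P (σ.th v)
  unit : ∑ v ∈ range σ.A.n, σ.A.h v • σ.th v = g
  lat : IsLat H' σ.A σ.th
  cmp : ∀ Φ ∈ σ.FL, Cmp σ.A.l Φ
  emb : BND.emb σ.A.l ∈ σ.FL

/-- hypotheses on the next level -/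
structure Nx (m : ℕ) (A A' : LD) (M : ℕ → ℕ → ℕ) (J : ℕ) : Prop where
  gl : A.Gl
  gl' : A'.Gl
  hh : ∀ v', v' < A'.n → A'.h v' = ∑ v ∈ range A.n, M v' v * A.h v
  big : ∀ v' v, v' < A'.n → v < A.n → Nb m A J ≤ M v' v
  J1 : 1 ≤ J

open Classical in
/-- the words of the next level: explicit at the vertices, paths at the bands -/
structure IsW (Rk : Prop) (A A' : LD) (M : ℕ → ℕ → ℕ) (J : ℕ) (w : ℕ → ℝ → List (ℕ × ℝ)) : Prop where
  vt : ∀ e s, e < A'.n → w e s = wv A.l J (M e)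
  bd : ∀ e, A'.n ≤ e → e < A'.l.N → ∃ d : ℕ → ℤ,
    PdW A.l (Gd A.l J (kp M (A'.l.W e false)) (kp M (A'.l.W e true)) (2 * A.cs)
        (((A'.l.W e false).length + (A'.l.W e true).length) * hw A.l.h (Dl A.l.N J)))
      ((A'.l.W e false).flatMap fun v => wv A.l J (M v)) ((A'.l.W e true).flatMap fun v => wv A.l J (M v)) d
      (if e < A'.n + A'.n * A'.n then {x | x.1 < A.l.N ∧ x.2 ∈ U} else ∅) (w e) ∧
    (Rk → e < A'.n + A'.n * A'.n → ∀ i, i < A.n + A.n * A.n → d i = 0)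

/-- the step from the state `σ` at the level `m` to the state `σ'` -/
structure IsStep {H : Type} [AddCommGroup H] (Rk : Prop) (m : ℕ) (σ σ' : Sta H)
    (M : ℕ → ℕ → ℕ) (w : ℕ → ℝ → List (ℕ × ℝ)) (S : Set ℝ) : Prop where
  th_eq : ∀ v, v < σ.A.n → σ.th v = ∑ v' ∈ range σ'.A.n, M v' v • σ'.th v'
  kill : ∀ z : ℕ → ℤ, ∑ v ∈ range σ.A.n, z v • σ.th v = 0 → ∀ v', v' < σ'.A.n →
    ∑ v ∈ range σ.A.n, (M v' v : ℤ) * z v = 0
  fl : σ'.FL = BND.emb σ'.A.l :: σ.FL.map fun Φ e s i => fw σ.A.l.h Φ (w e s) i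
  htw : ∀ e s, e < σ'.A.l.N → s ∈ U → hw σ.A.l.h (w e s) = σ'.A.l.h e
  lett : ∀ e s, e < σ'.A.l.N → s ∈ U → ∀ a ∈ w e s, a.1 < σ.A.l.N ∧ a.2 ∈ U
  vtx : ∀ e s, e < σ'.A.n → w e s = w e 0
  cont : ∀ Φ, Cmp σ.A.l Φ → ∀ e i, e < σ'.A.l.N → i < σ'.A.l.h e →
    ContinuousOn (fun s => fw σ.A.l.h Φ (w e s) i) U
  ends : ∀ Φ, Cmp σ.A.l Φ → ∀ e (b : Bool) i, e < σ'.A.l.N → i < σ'.A.l.h e →
    fw σ.A.l.h Φ (w e (if b then 1 else 0)) i = fw σ.A.l.h Φ ((σ'.A.l.W e b).flatMap fun v => w v 0) i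
  bot : ∀ e s, e < σ'.A.l.N → s ∈ U → (w e s).head? = some (0, 0)
  top : ∀ e s, e < σ'.A.l.N → s ∈ U → (w e s).getLast? = some (0, 0)
  dns : ∀ e' s', e' < σ'.A.l.N → s' ∈ U → ∀ e t, e < σ.A.l.N → t ∈ U → ∃ t' ∈ U, (e, t') ∈ w e' s' ∧
    ∀ Φ ∈ σ.FL, ∀ i, i < σ.A.l.h e → ∀ c, ‖Φ e t i c - Φ e t' i c‖ ≤ 1 / ((m : ℝ) + 1)
  cov : ∀ e t, e < σ.A.l.N → t ∈ U → ∃ e' s', e' < σ'.A.l.N ∧ s' ∈ U ∧ (e, t) ∈ w e' s'
  sfin : S.Finite
  onev : ∀ e, e < σ'.A.n → ∀ a ∈ w e 0, a.1 < σ.A.n ∨ a.2 ∈ S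
  oneb : ∀ e s, e < σ'.A.l.N → s ∈ U → ∃ A x R, w e s = A ++ x :: R ∧ ∀ a ∈ A ++ R, a.1 < σ.A.n ∨ a.2 ∈ S
  cnt : ∀ v' (z : ℕ → ℤ), v' < σ'.A.n →
    sw (fun e _ => ((σ.A.l.W e false).map z).sum) (w v' 0) = ∑ v ∈ range σ.A.n, (M v' v : ℤ) * z v
  st1 : ∀ v' (ς : ℕ → ℝ → ℝ), v' < σ'.A.n → (∀ e s, e < σ.A.l.N → s ∈ U → |ς e s| ≤ σ.A.l.h e) →
    |sw ς (w v' 0) - ∑ v ∈ range σ.A.n, (M v' v : ℝ) * ς v 0| ≤ (1 / 2) ^ m * σ'.A.l.h v'
  st2 : ∀ e s (ς : ℕ → ℝ → ℝ), e < σ'.A.l.N → s ∈ U → (∀ e s, e < σ.A.l.N → s ∈ U → |ς e s| ≤ σ.A.l.h e) →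
    ∃ r ∈ U, |sw ς (w e s) - ((1 - r) * ((σ'.A.l.W e false).map fun v => sw ς (w v 0)).sum +
      r * ((σ'.A.l.W e true).map fun v => sw ς (w v 0)).sum)| ≤ (1 / 2) ^ m * σ'.A.l.h e
  lft : Rk → ∀ (lam : ℕ → ℝ → ℂ) (nn : ℕ → ℤ), IsLog σ.A.l lam nn →
    (∀ e, σ.A.n + σ.A.n * σ.A.n ≤ e → e < σ.A.l.N → nn e = 0) →
    ∃ (Lam : ℕ → ℝ → ℂ) (nn' : ℕ → ℤ), IsLog σ'.A.l Lam nn' ∧
      (∀ e', e' < σ'.A.n + σ'.A.n * σ'.A.n → nn' e' = 0) ∧
      (∀ v, v < σ'.A.n → Lam v 0 = sw lam (w v 0)) ∧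
      ∀ e', e' < σ'.A.l.N → ∀ s ∈ U, Complex.exp (Lam e' s) = Complex.exp (sw lam (w e' s))

end Pool.Agent.BND.EX
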