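import Pool.Agent.helper70.BND.DefsP
import Pool.Agent.helper72.PV.SpecH

/-!
# Project bnd (MP_376aaf_an), block H: existence of band systems (`HEX_stmt`). The rows

Complete paper proof in the docstrings. RULES. Row `XXX`: file `Pool/Agent/<seat>/BNH/XXX.lean`, `import Pool.Agent.helper70.BND.SpecH`,
`set_option autoImplicit false`, `open scoped Topology`, `open Finset`, `namespace Pool.Agent.BND.EX`, theorem line exactly as in the lock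
note (other rows only as hypotheses), auxiliary lemmas prefixed `XXX_`. Small lemmas on `hw sw vw fw` are in `DefsP.lean` (for free
use). No straight double quotes, no convert / congr!. Land, note DONE + path, one line to helper70. A doubtful statement: tell me.

CONVENTIONS. `A : LD` level data, `A.l` the level (`A.l.n = A.n`, `A.l.N = A.n + A.n * A.n + A.k`, `A.l.W = Wd A.n A.c` by `rfl`).
`l` stands for `A.l`, `D` for the list `Dl l.N J`, `D°` for `D0 l J`.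
-/

set_option autoImplicit false

open scoped Topology
open Finset

namespace Pool.Agent.BND.EX

/-! ## A. Arithmetic -/

/-- **STG** (short-medium). uses: PVH.STN. The next stage with large multiplicities. Claim for `N = 3^t` by induction on `t`. `t = 0`: STN (`1 ≤ 3`). Step: STN for `(n, v, x)` gives `(n₁, w₁, M₁)` with entries `≥ 3`; the claim for `(n₁, w₁, x)` gives `(n', w, M₂)`
with entries `≥ 3^t`; `M j' j = ∑_(i < n₁) M₂ j' i * M₁ i j ≥ 3^t * 3` (one term `i = 0 < n₁`); sums are exchanged (`Finset.sum_comm`, `sum_smul`); kill: `∑_j M j' j z j = ∑_i M₂ j' i ∑_j M₁ i j z j = 0`. General `N ≤ 3^N` (`Nat.lt_pow_self`). -/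
def STG_stmt : Prop := ∀ (H : Type) [AddCommGroup H] (P : H → Prop) (g : H), PVH.SOG P g →
  ∀ (n : ℕ) (v : ℕ → H), 0 < n → (∀ j, j < n → P (v j)) → ∀ x, P x → ∀ N : ℕ,
  ∃ (n' : ℕ) (w : ℕ → H) (M : ℕ → ℕ → ℕ), 0 < n' ∧ (∀ j', j' < n' → P (w j')) ∧
    (∀ j, j < n → v j = ∑ j' ∈ range n', M j' j • w j') ∧ (∀ j' j, j' < n' → j < n → N ≤ M j' j) ∧
    (∀ z : ℕ → ℤ, ∑ j ∈ range n, z j • v j = 0 → ∀ j', j' < n' → ∑ j ∈ range n, (M j' j : ℤ) * z j = 0) ∧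
    ∃ c : ℕ → ℕ, x = ∑ j' ∈ range n', c j' • w j'

/-- **LAT** (medium; Mathlib only). Basis of the annihilator. `φ : (Fin n → ℤ) →+ H ⧸ H'`, `z ↦ ∑ z v • th v` (as a `ℤ`-linear map). `B = (Fin n → ℤ) ⧸ ker φ` is finitely generated and torsion free (`a • z ∈ ker φ`, `a ≠ 0`, means `a • y ∈ H'`, so `y ∈ H'`; negative `a`: use `-a`), so free:
`Module.finBasis ℤ B` or `Module.Free.of_...` / `Module.free_of_finite_type_torsion_free'`; let `b : Basis (Fin k) ℤ B`, `c j v = b.repr (mk (Pi.single v 1)) j` (0 outside). Then `∑ c j v z v = b.repr (mk z) j`, so `z ∈ ker φ` iff all these vanish (`mem`); `bas`: a lift of `∑ nn j • b j`;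
`ann`: `x` defines a linear form on `Fin n → ℤ` that vanishes on `ker φ`, so a form `x'` on `B` (`Submodule.liftQ`), `x v = x' (mk (single v)) = ∑_j c j v x' (b j)`; `a j = x' (b j)`. -/
def LAT_stmt : Prop := ∀ (H : Type) [AddCommGroup H] (H' : AddSubgroup H),
  (∀ (n : ℕ) (x : H), 1 ≤ n → n • x ∈ H' → x ∈ H') → ∀ (n : ℕ) (h : ℕ → ℕ) (th : ℕ → H),
  ∃ (k : ℕ) (c : ℕ → ℕ → ℤ), IsLat H' ⟨n, h, k, c⟩ th

/-- **RK1** (medium; Mathlib only). Rank one. For `z, z'` in `Z = {z | ∑ z • th ∈ H'}` there are `a, b` not both `0` with `a ∑ z th = b ∑ z' th`, so `x` and `y` vanish on `a z - b z'`: `a (x·z) = b (x·z')`, `a (y·z) = b (y·z')`, hence `(x·z)(y·z') = (x·z')(y·z)` (say `a ≠ 0`; multiply by `a`). If `x·z = y·z = 0` on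
`Z`: `x`, `y` are combinations `λ, λ'` of the `c j` (`ann`) and `x_a y_b - x_b y_a = ∑_j (λ_a a'_j c j b - λ_b a'_j c j a)` (`y = ∑ a'_j c j`). Otherwise fix `z₀ ∈ Z` with `(P, Q) = (x·z₀, y·z₀) ≠ 0`, `g = gcd(P, Q)`, `P = g p`, `Q = g q`, `α p + β q = 1` (`Int.gcd_eq_gcd_ab`), `w = α x + β y`. For `z ∈ Z`:
`(x·z) Q = P (y·z)`, so `(x·z) q = p (y·z)` and `p (w·z) = x·z`, `q (w·z) = y·z`. By `ann`: `x = p w + λ`, `y = q w + λ'` on `range n`, `λ = ∑ a_j c_j`, `λ' = ∑ a'_j c_j`. Then `x_a y_b - x_b y_a = ∑_j (N a j c_j b - N b j c_j a)` with `N a j = p w_a a'_j - q w_a a_j + λ_a a'_j` (ring). -/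
def RK1_stmt : Prop := ∀ (H : Type) [AddCommGroup H] (H' : AddSubgroup H), RkOne H' → ∀ (A : LD) (th : ℕ → H), IsLat H' A th →
  ∀ x y : ℕ → ℤ, (∀ z : ℕ → ℤ, ∑ v ∈ range A.n, z v • th v = 0 → ∑ v ∈ range A.n, x v * z v = 0) →
  (∀ z : ℕ → ℤ, ∑ v ∈ range A.n, z v • th v = 0 → ∑ v ∈ range A.n, y v * z v = 0) →
  ∃ N : ℕ → ℕ → ℤ, ∀ a b, a < A.n → b < A.n →
    x a * y b - x b * y a = ∑ j ∈ range A.k, (N a j * A.c j b - N b j * A.c j a)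

/-- **LTR** (short-medium). The transposed matrix maps the annihilator of the level `m + 1` into that of the level `m`. `ann` for `x v = ∑_(v') c' j v' M v' v`: if `∑ z v th v ∈ H'`, then `∑_(v') (∑_v M v' v z v) th' v' = ∑_v z v th v ∈ H'`, so by `mem`
for `A'`: `∑_(v') c' j v' ∑_v M v' v z v = 0`. -/
def LTR_stmt : Prop := ∀ (H : Type) [AddCommGroup H] (H' : AddSubgroup H) (A A' : LD) (th th' : ℕ → H) (M : ℕ → ℕ → ℕ),
  IsLat H' A th → IsLat H' A' th' → (∀ v, v < A.n → th v = ∑ v' ∈ range A'.n, M v' v • th' v') →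
  ∀ j, j < A'.k → ∃ a : ℕ → ℤ, ∀ v, v < A.n → ∑ v' ∈ range A'.n, A'.c j v' * M v' v = ∑ i ∈ range A.k, a i * A.c i v

/-- **GLV** (short). `ort`: `mem` with `z = h`; `ne`: `bas` with `nn = 1` gives `∑ c j v z v = 1 ≠ 0`. -/
def GLV_stmt : Prop := ∀ (H : Type) [AddCommGroup H] (H' : AddSubgroup H) (A : LD) (th : ℕ → H), IsLat H' A th → 0 < A.n →
  (∀ v, v < A.n → 0 < A.h v) → ∑ v ∈ range A.n, A.h v • th v ∈ H' → A.Gl

/-! ## B. The levels -/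

/-- **WDC** (short; Mathlib only). The words `wd`. (`List.count_flatMap`, `List.sum_map_...`, induction on `n` with `List.range_succ`.) -/
def WDC_stmt : Prop := ∀ (n : ℕ) (x : ℕ → ℕ), (∀ v, (wd n x).count v = if v < n then x v else 0) ∧ (∀ v ∈ wd n x, v < n) ∧
  ∀ (Z : Type) [AddCommMonoid Z] (z : ℕ → Z), ((wd n x).map z).sum = ∑ v ∈ range n, x v • z v

/-- **MKL** (short-medium). uses: WDC. The level `A.l` satisfies `IsLv`. Commutation bands: `(e - n) / n < n` and `(e - n) % n < n` for `e - n < n * n`, both words have the height `h a + h b`. Bands `c`: `∑ c⁺ h = ∑ c⁻ h` by `ort` (`c = c.toNat - (-c).toNat`); the height is positive: by `ort` and `ne` some `c j v < 0`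
(otherwise all terms are `≥ 0` and one is `> 0`). Lower bounds for the heights: a nonempty word contains a vertex. Last parts: `(a n + b) / n = a`, `(a n + b) % n = b` for `b < n`, `a n + b < n n`; counts by WDC. -/
def MKL_stmt : Prop := ∀ A : LD, A.Gl → IsLv A.l ∧ (∀ v, v < A.n → A.l.h v = A.h v) ∧
  (∀ m : ℕ, (∀ v, v < A.n → m ≤ A.h v) → ∀ e, e < A.l.N → m ≤ A.l.h e) ∧
  (∀ a b, a < A.n → b < A.n → A.n ≤ A.cb a b ∧ A.cb a b < A.n + A.n * A.n ∧ (A.cb a b - A.n) / A.n = a ∧ (A.cb a b - A.n) % A.n = b ∧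
    A.l.W (A.cb a b) false = [a, b] ∧ A.l.W (A.cb a b) true = [b, a]) ∧
  (∀ e, A.n ≤ e → e < A.n + A.n * A.n → ∃ a b, a < A.n ∧ b < A.n ∧ e = A.cb a b) ∧
  (∀ e b, e < A.l.N → A.l.W e b ≠ []) ∧
  ∀ j, j < A.k → A.gb j < A.l.N ∧ ∀ v, v < A.n → (A.l.W (A.gb j) false).count v = (-(A.c j v)).toNat ∧
    (A.l.W (A.gb j) true).count v = (A.c j v).toNat

/-- **EMC** (short-medium). The embedding is compatible. `at0` for bands: `emb l e 0 i = single (fl h (W e false) i) 1` (the other terms are `0`), and for a word `u` of vertices and `i < ∑ h`: `fw h (emb l) (vw u) i = single (fl h u i) 1` (induction on `u`; `emb l v 0 i = single (v, i) 1` for `v < n`).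
`at1`: `1 - 1 = 0`. `cts`: each term is a continuous function of `s` times a constant (`Pi.single_apply` / `continuous_pi`). `fin`: the coordinates `(e, i)`, `e < N`, `i <` the sum of all heights. -/
def EMC_stmt : Prop := ∀ l : Lv, IsLv l → Cmp l (emb l)

/-- **BDN** (short-medium). uses: WDC, MKL. The bands see exactly `H'`. Vertices and commutation bands give no condition; the band `c j` the condition `∑ c⁻ z = ∑ c⁺ z`, i.e. `∑ c j v z v = 0`. Then `IsLat.mem`. -/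
def BDN_stmt : Prop := ∀ (H : Type) [AddCommGroup H] (H' : AddSubgroup H) (A : LD) (th : ℕ → H), IsLat H' A th → A.Gl →
  ∀ z : ℕ → ℤ, (∀ e, e < A.l.N → ((A.l.W e false).map z).sum = ((A.l.W e true).map z).sum) ↔ ∑ v ∈ range A.n, z v • th v ∈ H'

/-- **BAS** (short-medium). uses: WDC, MKL. Bases: `IsLat.bas`; the words of the other letters are permutations of each other. -/
def BAS_stmt : Prop := ∀ (H : Type) [AddCommGroup H] (H' : AddSubgroup H) (A : LD) (th : ℕ → H), IsLat H' A th → A.Gl →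
  (∀ nn : ℕ → ℤ, ∃ z : ℕ → ℤ, ∀ e, A.n + A.n * A.n ≤ e → e < A.l.N →
    ((A.l.W e true).map z).sum - ((A.l.W e false).map z).sum = nn e) ∧
  ∀ e, e < A.n + A.n * A.n → (A.l.W e true).Perm (A.l.W e false)

/-! ## C. Paths of words -/

/-- **PRF** (short-medium). Constant paths (`d = 0`: `Lam = sw lam w` constant); change of the degrees outside `range N` and smaller sets of visited letters. -/
def PRF_stmt : Prop := ∀ (l : Lv) (Q : List (ℕ × ℝ) → Prop), (∀ w, Q w → Pd l Q w w (fun _ => 0) ∅) ∧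
  ∀ (w w' : List (ℕ × ℝ)) (d d' : ℕ → ℤ) (vs vs' : Set (ℕ × ℝ)), Pd l Q w w' d vs → (∀ e, e < l.N → d e = d' e) → vs' ⊆ vs →
    Pd l Q w w' d' vs'

/-- **PSY** (short-medium). Reversed paths: `γ (1 - s)`; `Lam' s = Lam (1 - s) - 2 π i ∑ d nn` (the exponential does not change: `Complex.exp_eq_exp_iff_exists_int` or `Complex.exp_int_mul_two_pi_mul_I`). -/
def PSY_stmt : Prop := ∀ (l : Lv) (Q : List (ℕ × ℝ) → Prop) (w w' : List (ℕ × ℝ)) (d : ℕ → ℤ) (vs : Set (ℕ × ℝ)),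
  Pd l Q w w' d vs → Pd l Q w' w (fun e => -d e) vs

/-- **PTR** (medium). Concatenation: `γ s = if s ≤ 1/2 then γ₁ (2 s) else γ₂ (2 s - 1)`. Continuity of the floors on `U`: `ContinuousOn.if` or: a function which is continuous on `[0, 1/2]` and on `[1/2, 1]` is continuous on `[0, 1]` (`ContinuousOn.union_of_isClosed`); on `[1/2, 1]` the floors are those of `γ₂ (2 s - 1)`, also at
`s = 1/2`: `fw Φ (γ₁ 1) = fw Φ w' = fw Φ (γ₂ 0)`. `Lam s = Lam₁ (2 s)` resp. `Lam₂ (2 s - 1) + 2 π i ∑ d₁ nn` (equal at `1/2`). -/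
def PTR_stmt : Prop := ∀ (l : Lv) (Q : List (ℕ × ℝ) → Prop) (w w' w'' : List (ℕ × ℝ)) (d d' : ℕ → ℤ) (vs vs' : Set (ℕ × ℝ)),
  Pd l Q w w' d vs → Pd l Q w' w'' d' vs' → Pd l Q w w'' (fun e => d e + d' e) (vs ∪ vs')

/-- **PSL** (medium). One letter moves. (1) `γ s = A ++ (e, (1 - s) a) :: R`; (2) `γ s = A ++ (e, s) :: R`. Floors: for `i < hw A` and for `i ≥ hw A + h e` they are constant, otherwise `Φ e .. (i - hw A)`, continuous (`fw_append_left`, `fw_append_right`, `Cmp.cts` composed with `s ↦ (1 - s) a`, which maps `U` to `U`). End points: `Cmp.at0`,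
`Cmp.at1` in the middle part, `hw (vw (W e b)) = h e` (`IsLv.ht`, `hw_vw`). `Lam s = sw lam (γ s)`: continuous (`IsLog.cts`), `lam e 0 = ∑_(W e false) lam · 0` (`sw_vw`), `lam e 1 = ∑_(W e true) + 2 π i nn e`; in (1) the end word of `γ` is `A (e,0) R`, which has the same `sw` as `A vw(W e false) R`. `∑ Pi.single e 1 e' * nn e' = nn e`. -/
def PSL_stmt : Prop := ∀ (l : Lv) (Q : List (ℕ × ℝ) → Prop) (A R : List (ℕ × ℝ)) (e : ℕ), IsLv l → e < l.N →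
  (∀ t ∈ U, Q (A ++ (e, t) :: R)) →
  (∀ a ∈ U, Pd l Q (A ++ (e, a) :: R) (A ++ (vw (l.W e false) ++ R)) (fun _ => 0) {x | x.1 = e ∧ 0 ≤ x.2 ∧ x.2 ≤ a}) ∧
  Pd l Q (A ++ (vw (l.W e false) ++ R)) (A ++ (vw (l.W e true) ++ R)) (Pi.single e 1) ∅

/-- **PDC** (short-medium). uses: PSL, PTR, PRF. Decorations become vertices. Induction on `D` (for all `A`): `D = a :: D'`: PSL (1) replaces `a` by `vw (W a.1 false)`, then the induction hypothesis with `A ++ vw (W a.1 false)`. -/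
def PDC_stmt : Prop := ∀ (l : Lv) (Q : List (ℕ × ℝ) → Prop) (D A R : List (ℕ × ℝ)), IsLv l → (∀ a ∈ D, a.1 < l.N ∧ a.2 ∈ U) →
  (∀ D₁ D₂, D = D₁ ++ D₂ → Q (A ++ (vw (D₁.flatMap fun a => l.W a.1 false) ++ (D₂ ++ R)))) →
  (∀ D₁ a D₂ t, D = D₁ ++ a :: D₂ → t ∈ U → Q (A ++ (vw (D₁.flatMap fun a => l.W a.1 false) ++ (a.1, t) :: (D₂ ++ R)))) →
  Pd l Q (A ++ (D ++ R)) (A ++ (vw (D.flatMap fun a => l.W a.1 false) ++ R)) (fun _ => 0)
    {x | ∃ a ∈ D, x.1 = a.1 ∧ 0 ≤ x.2 ∧ x.2 ≤ a.2}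

/-- **NPR** (short-medium; Mathlib only). Numbers of pairs. (1) `npr` of an append. (2) moving one letter `x` through `W`. (3) exchange of two blocks around `Z`: expand with (1); the common terms `npr A + npr B + npr Z` cancel. (4) `npr` does not depend on the order of the rest in front: `npr a b (x :: Y) - npr a b (x :: Y')` for `Y ~ Y'`.
(5) transposition. -/
def NPR_stmt : Prop := ∀ a b : ℕ,
  (∀ X Y : List ℕ, npr a b (X ++ Y) = npr a b X + npr a b Y + (X.count a : ℤ) * Y.count b) ∧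
  (∀ (x : ℕ) (W Y : List ℕ), npr a b (x :: (W ++ Y)) - npr a b (W ++ x :: Y) =
    (if x = a then (W.count b : ℤ) else 0) - (if x = b then (W.count a : ℤ) else 0)) ∧
  (∀ X Y Z : List ℕ, npr a b (X ++ (Z ++ Y)) - npr a b (Y ++ (Z ++ X)) =
    ((X.count a : ℤ) + Z.count a) * (Y.count b + Z.count b) - ((X.count b : ℤ) + Z.count b) * (Y.count a + Z.count a)) ∧
  (∀ (x : ℕ) (Y Y' : List ℕ), Y.Perm Y' → npr a b (x :: Y) - npr a b (x :: Y') = npr a b Y - npr a b Y') ∧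
  ∀ (x y : ℕ) (Z : List ℕ), npr a b (y :: x :: Z) - npr a b (x :: y :: Z) =
    (if y = a ∧ x = b then 1 else 0) - (if x = a ∧ y = b then 1 else 0)

/-- **PCM** (medium). uses: MKL, PSL, PTR, PSY, PRF, NPR. Commutations. `List.Perm` induction, for all `B`. `nil`: PRF. `cons x`: the induction hypothesis with `B ++ [(x, 0)]`; `dI (x :: Y) (x :: Y') = dI Y Y'` (NPR (4)). `swap x y Z`: from `y :: x :: Z` to `x :: y :: Z`: if `x = y` PRF; if `y < x`: PSL (2) with `e = cb y x`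
(`W e false = [y, x]`, `W e true = [x, y]`), degree `Pi.single e 1`, which is `dI` (NPR (5), PRF); if `x < y`: PSL (2) with `e = cb x y` from `x y` to `y x`, reversed (PSY). `trans`: PTR, `dI X X'' = dI X X' + dI X' X''`. (The hypotheses on `Q` for `X'` instead of `X`: permutations of `X'` are permutations of `X`.) -/
def PCM_stmt : Prop := ∀ (A : LD), A.Gl → ∀ (Q : List (ℕ × ℝ) → Prop) (X X' : List ℕ), X.Perm X' → (∀ x ∈ X, x < A.n) →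
  ∀ B R : List (ℕ × ℝ), (∀ Y : List ℕ, Y.Perm X → Q (B ++ (vw Y ++ R))) →
  (∀ (Y Z : List ℕ) (a b : ℕ) (t : ℝ), a < b → b < A.n → t ∈ U → (Y ++ a :: b :: Z).Perm X →
    Q (B ++ (vw Y ++ (A.cb a b, t) :: (vw Z ++ R)))) →
  Pd A.l Q (B ++ (vw X ++ R)) (B ++ (vw X' ++ R)) (dI A.n X X') ∅

/-- **LPA** (medium; pure). The lattice path near the segment. Let `K ≥ 1` be a natural number with `|N j| ≤ K` for `j < k`; `a^(i) j = ⌊i N_j / K⌋` (`0` for `j ≥ k`), `i = 0, ..., K`: `a^(0) = 0`, `a^(K) = N`, `|a^(i) j - (i/K) N_j| ≤ 1` and `a^(i+1) j - a^(i) j ∈ {-1, 0, 1}`. From `a^(i)` to `a^(i+1)` change the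
coordinates `j = 0, 1, ..., k - 1` one after the other: the vectors `b^(i,j₀)` (`a^(i+1)` for `j < j₀`, `a^(i)` for `j ≥ j₀`) satisfy `|b j - (i/K) N_j| ≤ 2`. So `T (b^(i,j₀))` by induction on `(i, j₀)` (if the coordinate does not change there is nothing to prove). -/
def LPA_stmt : Prop := ∀ (k : ℕ) (N : ℕ → ℤ) (T : (ℕ → ℤ) → Prop), (∀ j, k ≤ j → N j = 0) → T (fun _ => 0) →
  (∀ (a : ℕ → ℤ) (j : ℕ) (ε : ℤ), j < k → (ε = 1 ∨ ε = -1) → (∀ i, k ≤ i → a i = 0) → T a →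
    (∃ r ∈ U, ∀ i, i < k → |(a i : ℝ) - r * N i| ≤ 2) →
    (∃ r ∈ U, ∀ i, i < k → |((a i + if i = j then ε else 0 : ℤ) : ℝ) - r * N i| ≤ 2) →
    T (fun i => a i + if i = j then ε else 0)) → T N

/-! ## D. Words of the letters of the next level -/

/-- **DLF** (short; Mathlib only). Facts on the decorations (`J = 0`: `0/0 = 0`). Nearest point: `j = ⌊t J⌋`. `h e ≤ hw h D`: `(e, 0)` is a letter of `D`. -/
def DLF_stmt : Prop := ∀ N J : ℕ, (∀ a ∈ Dl N J, a.1 < N ∧ a.2 ∈ U ∧ a.2 ∈ Sj J) ∧ (∀ e s, e < N → s ∈ Sj J → (e, s) ∈ Dl N J) ∧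
  (Sj J).Finite ∧ (0 : ℝ) ∈ Sj J ∧ (∀ s ∈ Sj J, s ∈ U) ∧ (1 ≤ J → (1 : ℝ) ∈ Sj J) ∧
  (1 ≤ J → ∀ t ∈ U, ∃ t' ∈ Sj J, |t - t'| ≤ 1 / (J : ℝ)) ∧ ∀ (h : ℕ → ℕ) (e : ℕ), e < N → h e ≤ hw h (Dl N J)

/-- **SWE** (short-medium). Sums over words. Induction on `w`: `cv (a :: w) v = (W a.1 false).count v + cv w v`, and `∑_(v<n) (u.count v) z v = (u.map z).sum` for words `u` in the vertices. Last part: a letter `(v, 0)`, `v < n`, contributes `ς v 0 - ς v 0 = 0` (`W v false = [v]`); every other letter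
`|ς a - ∑_(v ∈ W a.1 false) ς v 0| ≤ h a + ∑ h v = 2 h a`. -/
def SWE_stmt : Prop := ∀ l : Lv, IsLv l → ∀ w : List (ℕ × ℝ), (∀ a ∈ w, a.1 < l.N ∧ a.2 ∈ U) →
  (∀ z : ℕ → ℤ, sw (fun e _ => ((l.W e false).map z).sum) w = ∑ v ∈ range l.n, (cv l w v : ℤ) * z v) ∧
  hw l.h w = ∑ v ∈ range l.n, cv l w v * l.h v ∧
  ∀ ς : ℕ → ℝ → ℝ, (∀ e s, e < l.N → s ∈ U → |ς e s| ≤ l.h e) →
    |sw ς w - ∑ v ∈ range l.n, (cv l w v : ℝ) * ς v 0| ≤ 2 * nvh l w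

/-- **CVF** (short; Mathlib only). Elementary facts on `cv` and `nvh`: additivity, vertices, `nvh ≤ hw`. -/
def CVF_stmt : Prop := ∀ l : Lv, IsLv l → (∀ (u w : List (ℕ × ℝ)) (v : ℕ), cv l (u ++ w) v = cv l u v + cv l w v) ∧
  (∀ (u w : List (ℕ × ℝ)), nvh l (u ++ w) = nvh l u + nvh l w) ∧ (∀ w : List (ℕ × ℝ), nvh l w ≤ hw l.h w) ∧
  (∀ (u : List ℕ) (v : ℕ), (∀ x ∈ u, x < l.n) → cv l (vw u) v = u.count v) ∧
  (∀ u : List ℕ, (∀ x ∈ u, x < l.n) → nvh l (vw u) = 0) ∧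
  (∀ (a : ℕ × ℝ) (v : ℕ), cv l [a] v = (l.W a.1 false).count v) ∧ ∀ (J v : ℕ), cv l (Dl l.N J) v = (D0 l J).count v

/-- **VWC** (short-medium). uses: MKL, WDC, DLF, CVF. Counts of the words. `(0 :: 0 :: D°).count v ≤ D°.length + 2 ≤ M v`, so `co` has `M v - count` letters `v`. `ct`: induction; each further `x ∈ u` adds `0 0 D° co(M x)`, i.e. `M x v` letters `v`. `cv (wv) = fc`: CVF. `hw`: SWE or directly. -/
def VWC_stmt : Prop := ∀ (A : LD) (J : ℕ), A.Gl → (∀ x ∈ D0 A.l J, x < A.n) ∧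
  ∀ M : ℕ → ℕ → ℕ, (∀ (x : ℕ), ∀ v ∈ co A.l J (M x), v < A.n) ∧ (∀ u, ∀ v ∈ ct A.l J M u, v < A.n) ∧
    (∀ x, (∀ v, v < A.n → (D0 A.l J).length + 3 ≤ M x v) → (∀ v, v < A.n → fc A.l J (co A.l J (M x)) v = M x v) ∧
      (∀ v, v < A.n → (co A.l J (M x)).count v + (0 :: 0 :: D0 A.l J).count v = M x v) ∧
      (∀ v, v < A.n → cv A.l (wv A.l J (M x)) v = M x v) ∧ nvh A.l (wv A.l J (M x)) ≤ hw A.l.h (Dl A.l.N J) ∧
      co A.l J (M x) ≠ [] ∧ hw A.l.h (wv A.l J (M x)) = ∑ v ∈ range A.n, M x v * A.h v) ∧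
    ∀ u : List ℕ, u ≠ [] → (∀ x ∈ u, ∀ v, v < A.n → (D0 A.l J).length + 3 ≤ M x v) →
      (∀ v, v < A.n → fc A.l J (ct A.l J M u) v = kp M u v) ∧ ct A.l J M u ≠ []

/-- **CAT** (short-medium; Mathlib only). The concatenation of the words of the vertices is `0 D dc 0`. Induction on `u`: `w(v) w(x) ... = 0 D co(v) 0 0 D co(x) 0 ...` (list associativity: `simp [wv, FX, dc]`). -/
def CAT_stmt : Prop := ∀ (l : Lv) (J : ℕ) (M : ℕ → ℕ → ℕ) (u : List ℕ), u ≠ [] →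
  (u.flatMap fun x => wv l J (M x)) = (0, 0) :: (Dl l.N J ++ dc l J M u ++ [(0, 0)])

/-- **GDX** (short-medium). uses: MKL, DLF, CVF. Good words. (a) `FX X`; (b) the same with one letter `(e, t)` instead of its first word. `cv` of both is `fc X` (`(Y ++ W e false ++ Z).Perm X`); `nvh ≤ hw D + h e ≤ 2 hw D` (DLF). Shape: `vw X = [] ++ (x, 0) :: ..`. -/
def GDX_stmt : Prop := ∀ (A : LD) (J : ℕ) (κ₀ κ₁ : ℕ → ℕ) (Cc Bb : ℕ) (X : List ℕ), A.Gl → (∀ x ∈ X, x < A.n) → X ≠ [] →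
  2 * hw A.l.h (Dl A.l.N J) ≤ Bb → Nr A.n κ₀ κ₁ Cc (fun v => (fc A.l J X v : ℤ)) →
  Gd A.l J κ₀ κ₁ Cc Bb (FX A.l J X) ∧
  ∀ (Y Z : List ℕ) (e : ℕ) (t : ℝ), e < A.l.N → t ∈ U → (Y ++ (A.l.W e false ++ Z)).Perm X →
    Gd A.l J κ₀ κ₁ Cc Bb ((0, 0) :: (Dl A.l.N J ++ (vw Y ++ (e, t) :: vw Z) ++ [(0, 0)]))

/-- **FCM** (short-medium). uses: GDX, PCM, MKL. Commutations inside `FX`: PCM with `B = (0,0) :: D`, `R = [(0,0)]` (list associativity), the words are good by GDX (`W (cb a b) false = [a, b]`; `fc` depends only on the counts of `X`). -/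
def FCM_stmt : Prop := ∀ (A : LD) (J : ℕ) (κ₀ κ₁ : ℕ → ℕ) (Cc Bb : ℕ) (X X' : List ℕ), A.Gl → (∀ x ∈ X, x < A.n) → X ≠ [] →
  2 * hw A.l.h (Dl A.l.N J) ≤ Bb → Nr A.n κ₀ κ₁ Cc (fun v => (fc A.l J X v : ℤ)) → X.Perm X' →
  Pd A.l (Gd A.l J κ₀ κ₁ Cc Bb) (FX A.l J X) (FX A.l J X') (dI A.n X X') ∅

/-- **FBM** (short-medium). uses: GDX, PSL, MKL. A band inside `FX`: from `Y (W e false) Z` to `Y (W e true) Z`. PSL (2) with `A = (0,0) :: D ++ vw Y`, `R = vw Z ++ [(0,0)]`, the words `(0,0) D Y (e,t) Z (0,0)` are good by GDX for `X = Y ++ (W e false ++ Z)`. -/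
def FBM_stmt : Prop := ∀ (A : LD) (J : ℕ) (κ₀ κ₁ : ℕ → ℕ) (Cc Bb : ℕ) (Y Z : List ℕ) (e : ℕ), A.Gl → (∀ x ∈ Y ++ Z, x < A.n) →
  e < A.l.N → 2 * hw A.l.h (Dl A.l.N J) ≤ Bb → Nr A.n κ₀ κ₁ Cc (fun v => (fc A.l J (Y ++ (A.l.W e false ++ Z)) v : ℤ)) →
  Pd A.l (Gd A.l J κ₀ κ₁ Cc Bb) (FX A.l J (Y ++ (A.l.W e false ++ Z))) (FX A.l J (Y ++ (A.l.W e true ++ Z))) (Pi.single e 1) ∅

/-- **FCS** (short-medium). uses: FCM, FBM, MKL, WDC, PTR. A step `+ c j` of the vector of counts. `Y = wd n (X.count v - (-c j v).toNat)`: `X ~ W e false ++ Y` and `X' ~ W e true ++ Y`, `e = gb j` (counts, `List.perm_iff_count`). FCM, FBM (with `Y = []`), FCM. -/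
def FCS_stmt : Prop := ∀ (A : LD) (J : ℕ) (κ₀ κ₁ : ℕ → ℕ) (Cc Bb : ℕ) (X X' : List ℕ) (j : ℕ), A.Gl → (∀ x ∈ X, x < A.n) →
  (∀ x ∈ X', x < A.n) → j < A.k → 2 * hw A.l.h (Dl A.l.N J) ≤ Bb →
  Nr A.n κ₀ κ₁ Cc (fun v => (fc A.l J X v : ℤ)) → Nr A.n κ₀ κ₁ Cc (fun v => (fc A.l J X' v : ℤ)) →
  (∀ v, v < A.n → (-(A.c j v)).toNat ≤ X.count v) → (∀ v, v < A.n → (X'.count v : ℤ) = X.count v + A.c j v) →
  ∃ d, Pd A.l (Gd A.l J κ₀ κ₁ Cc Bb) (FX A.l J X) (FX A.l J X') d ∅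

/-- **CON** (medium). uses: FCM, FCS, LPA, WDC, PTR, PSY, MKL. Connectedness. LPA for `N` with `κ₁ = κ₀ + ∑ N_j c_j` and `T a`: for all words `X` in the vertices with `fc X v = κ₀ v + ∑_j a_j c_j v` (`v < n`) there is a path from `FX X₀` to `FX X`. `T 0`: `X ~ X₀` (`List.perm_iff_count`, `fc` = counts plus a constant), FCM. Steps: if `a` is
within `2` of `r N`, then the vector `κ₀ + ∑ a_j c_j` is within `2 cs` of `(1 - r) κ₀ + r κ₁` (`Nr`) and its components are at least `min κ - 2 cs ≥ D°.length + cs + 4`, so words `X` with these counts exist (`wd`), are not empty and have at least `cs ≥ (-c j v).toNat` letters `v`. `ε = 1`: given `X'` for `a + δ_j`, let `X = wd ..` for `a`;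
path to `FX X`, then FCS. `ε = -1`: FCS from `X'` to `X` (for `X = wd ..` with the vector of `a`), reversed. -/
def CON_stmt : Prop := ∀ (A : LD) (J : ℕ) (κ₀ κ₁ : ℕ → ℕ) (Bb : ℕ) (X₀ X₁ : List ℕ), A.Gl → (∀ x ∈ X₀, x < A.n) →
  (∀ x ∈ X₁, x < A.n) → 2 * hw A.l.h (Dl A.l.N J) ≤ Bb →
  (∀ v, v < A.n → fc A.l J X₀ v = κ₀ v ∧ fc A.l J X₁ v = κ₁ v ∧ 3 * A.cs + (D0 A.l J).length + 4 ≤ κ₀ v ∧
    3 * A.cs + (D0 A.l J).length + 4 ≤ κ₁ v) →
  (∃ N : ℕ → ℤ, ∀ v, v < A.n → (κ₁ v : ℤ) - κ₀ v = ∑ j ∈ range A.k, N j * A.c j v) →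
  ∃ d, Pd A.l (Gd A.l J κ₀ κ₁ (2 * A.cs) Bb) (FX A.l J X₀) (FX A.l J X₁) d ∅

/-- **FLP** (medium). uses: FCM, FBM, MKL, WDC, NPR, PTR, PSY, PRF. A loop. `w⁻ = W e false`, `w⁺ = W e true`, `e = gb j`, `Y = wd n (X.count v - (-c j v).toNat - δ_(v x))`. Path: `X ~ x w⁻ Y` (FCM), `x w⁺ Y` (FBM), `w⁺ x Y` (FCM), `w⁻ x Y` (FBM reversed), `x w⁻ Y` (FCM), `X` (FCM). Degrees: those of the first and the last part
cancel, `Pi.single e 1` cancels; `dI (x w⁺ Y) (w⁺ x Y) + dI (w⁻ x Y) (x w⁻ Y)` is on `(a, b)`: `([x = a] (w⁺)_b - [x = b] (w⁺)_a) - ([x = a] (w⁻)_b - [x = b] (w⁻)_a) = [x = a] c_b - [x = b] c_a` (NPR (2), `c = c.toNat - (-c).toNat`). The words with `w⁺` have the counts `X + c j`, which are near by hypothesis. -/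
def FLP_stmt : Prop := ∀ (A : LD) (J : ℕ) (κ₀ κ₁ : ℕ → ℕ) (Cc Bb : ℕ) (X : List ℕ) (x j : ℕ), A.Gl → (∀ x ∈ X, x < A.n) →
  x < A.n → j < A.k → 2 * hw A.l.h (Dl A.l.N J) ≤ Bb → Nr A.n κ₀ κ₁ Cc (fun v => (fc A.l J X v : ℤ)) →
  Nr A.n κ₀ κ₁ Cc (fun v => (fc A.l J X v : ℤ) + A.c j v) →
  (∀ v, v < A.n → (-(A.c j v)).toNat + 1 ≤ X.count v) →
  Pd A.l (Gd A.l J κ₀ κ₁ Cc Bb) (FX A.l J X) (FX A.l J X) (dW A.n (fun v => if v = x then 1 else 0) (A.c j)) ∅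

/-- **KIL** (short-medium). uses: FLP, GDX, PTR, PSY, PRF. All combinations of loops. The set of the `d` with `Pd (FX X) (FX X) d ∅` is an additive subgroup of `ℕ → ℤ` (GDX + PRF, PTR, PSY), so it contains `∑_(x<n) ∑_(j<k) N x j • dW n (δ_x) (c j)` (`AddSubgroup.sum_mem`, `zsmul_mem`), and this is `dW n x y` on `range N`: on `(a, b)`,
`a < b < n`: `∑_x ∑_j N x j ([x = a] c j b - [x = b] c j a) = ∑_j (N a j c j b - N b j c j a)`. Near: `|c j v| ≤ cs ≤ Cc` and `fc X = κ₀`, `r = 0`. -/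
def KIL_stmt : Prop := ∀ (A : LD) (J : ℕ) (κ₀ κ₁ : ℕ → ℕ) (Cc Bb : ℕ) (X : List ℕ) (x y : ℕ → ℤ) (N : ℕ → ℕ → ℤ), A.Gl →
  (∀ x ∈ X, x < A.n) → X ≠ [] → 2 * hw A.l.h (Dl A.l.N J) ≤ Bb → A.cs ≤ Cc → (∀ v, v < A.n → fc A.l J X v = κ₀ v) →
  (∀ v, v < A.n → A.cs + 1 ≤ X.count v) →
  (∀ a b, a < A.n → b < A.n → x a * y b - x b * y a = ∑ j ∈ range A.k, (N a j * A.c j b - N b j * A.c j a)) →
  Pd A.l (Gd A.l J κ₀ κ₁ Cc Bb) (FX A.l J X) (FX A.l J X) (dW A.n x y) ∅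

/-- **PH1** (medium). uses: CAT, VWC, CVF, DLF, MKL, PDC, PTR, PRF. Phase 1. `u = v :: u'`. By CAT the start is `0 D dc(u) 0`. Go through `u'` from the left (induction on the remaining part, for all vertex words `B` in front): `0 D (vw B) [0 0 D co(x)] rest 0`: PDC with `A = 0 D (vw B) 0 0`, `D`, `R = vw co(x) ++ rest ++ [0]` replaces this `D` by
`D°`. All words are good: shape clear (letters of `D` have parameters in `Sj J`, only one letter `(e, t)` has another parameter); `cv` does not change (first words), it is `kp M u v` (VWC), so near with `r = 0` or `r = 1`; `nvh ≤ u.length * hw D`: at most `u.length` copies of `D` (one of them partly replaced, `nvh ≤ hw` for the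
part `(a.1, t) D₂`). If `u'` is not empty, the letters `(e, t)` with `t ≤ 1`, `(e, 1) ∈ D` are visited (`J ≥ 1`). `u' = []`: constant path. -/
def PH1_stmt : Prop := ∀ (A : LD) (J : ℕ) (M : ℕ → ℕ → ℕ) (u : List ℕ) (κ₀ κ₁ : ℕ → ℕ) (Cc Bb : ℕ), A.Gl → 1 ≤ J → u ≠ [] →
  (∀ x ∈ u, ∀ v, v < A.n → (D0 A.l J).length + 3 ≤ M x v) →
  ((∀ v, v < A.n → κ₀ v = kp M u v) ∨ (∀ v, v < A.n → κ₁ v = kp M u v)) → u.length * hw A.l.h (Dl A.l.N J) ≤ Bb →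
  Pd A.l (Gd A.l J κ₀ κ₁ Cc Bb) (u.flatMap fun x => wv A.l J (M x)) (FX A.l J (ct A.l J M u)) (fun _ => 0)
    {a | 2 ≤ u.length ∧ a.1 < A.l.N ∧ a.2 ∈ U}

/-- **BPT** (short-medium). uses: PH1, CON, VWC, PTR, PSY, PRF. Paths for all pairs of words of the next level with counts that differ by an element of `Λ`. PH1 for `u`, CON for `X₀ = ct u`, `X₁ = ct u'` (VWC: `fc (ct u) = kp M u ≥` every `M x v`, `x ∈ u`), PH1 for `u'` reversed. -/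
def BPT_stmt : Prop := ∀ (A : LD) (J : ℕ) (M : ℕ → ℕ → ℕ) (u u' : List ℕ) (Bb : ℕ), A.Gl → 1 ≤ J → u ≠ [] → u' ≠ [] →
  (∀ x ∈ u ++ u', ∀ v, v < A.n → 3 * A.cs + (D0 A.l J).length + 4 ≤ M x v) →
  (u.length + u'.length) * hw A.l.h (Dl A.l.N J) ≤ Bb →
  (∃ N : ℕ → ℤ, ∀ v, v < A.n → (kp M u' v : ℤ) - kp M u v = ∑ j ∈ range A.k, N j * A.c j v) →
  ∃ d, Pd A.l (Gd A.l J (kp M u) (kp M u') (2 * A.cs) Bb) (u.flatMap fun x => wv A.l J (M x))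
    (u'.flatMap fun x => wv A.l J (M x)) d {a | 2 ≤ u.length ∧ a.1 < A.l.N ∧ a.2 ∈ U}

/-- **BP1** (medium). uses: PH1, FCM, KIL, NPR, VWC, PTR, PSY, PRF. Paths of degree zero for commutations, rank one. `X₀ = ct [a, b] = co(a) ++ (0 0 D° ++ co(b))`, `X₁ = ct [b, a]`. PH1, KIL at `X₀` with `-N` (degree `-dW (M a) (M b)`: apply KIL with `x = -(M a)`, `-N`), FCM (degree `dI X₀ X₁ = dW (M a) (M b)` on `range N`: NPR (3) with `Z = 0 :: 0 :: D°`,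
`count co + count Z = M`), PH1 for `[b, a]` reversed. `X₀` has at least `cs + 1` letters `v`: `fc X₀ v = M a v + M b v`, `fc X₀ v ≤ X₀.count v + D°.length + 2`. -/
def BP1_stmt : Prop := ∀ (A : LD) (J : ℕ) (M : ℕ → ℕ → ℕ) (a b : ℕ) (Bb : ℕ) (N : ℕ → ℕ → ℤ), A.Gl → 1 ≤ J →
  (∀ x ∈ [a, b], ∀ v, v < A.n → 3 * A.cs + (D0 A.l J).length + 4 ≤ M x v) → 4 * hw A.l.h (Dl A.l.N J) ≤ Bb →
  (∀ i j, i < A.n → j < A.n → (M a i : ℤ) * M b j - M a j * M b i = ∑ r ∈ range A.k, (N i r * A.c r j - N j r * A.c r i)) →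
  Pd A.l (Gd A.l J (kp M [a, b]) (kp M [b, a]) (2 * A.cs) Bb) ([a, b].flatMap fun x => wv A.l J (M x))
    ([b, a].flatMap fun x => wv A.l J (M x)) (fun _ => 0) {c | c.1 < A.l.N ∧ c.2 ∈ U}

/-! ## E. The step -/

/-- **JEX** (short-medium). Uniform continuity. For one `Φ`, `e < N`, `i < h e` and one coordinate `c ∈ F` the function `s ↦ Φ e s i c` is uniformly continuous on `U` (compact); there are finitely many `(Φ, e, i, c)`; outside `F` both values are `0`. Take `1/J` smaller than all `δ`. -/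
def JEX_stmt : Prop := ∀ (l : Lv) (FL : List (ℕ → ℝ → ℕ → Am)) (m : ℕ), (∀ Φ ∈ FL, Cmp l Φ) → ∃ J : ℕ, 1 ≤ J ∧
  ∀ Φ ∈ FL, ∀ e i, e < l.N → i < l.h e → ∀ t ∈ U, ∀ t' ∈ U, |t - t'| ≤ 1 / (J : ℝ) → ∀ c, ‖Φ e t i c - Φ e t' i c‖ ≤ 1 / ((m : ℝ) + 1)

/-- **EXW** (medium). uses: BPT, BP1, MKL, WDC, PRF. Existence of the words of the next level. For a band `e` of the level `A'` choose (classically) `w e = γ`. `e = cb a b` (`W e false = [a, b]`, `W e true = [b, a]`): if `Rk`: BP1 (`hN`); otherwise BPT with `N = 0` (`kp M [b, a] = kp M [a, b]`). `e = gb j`: BPT, `kp M (W e true) v - kp M (W e false) v = ∑_(v') (c⁺ - c⁻) M v' v`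
`= ∑ c' j v' M v' v` (WDC: sums over `wd`) and the hypothesis `hL`. `Nb ≥ 3 cs + D°.length + 10`. Vertices: `wv`. `({a | 2 ≤ length ..}` is the required set resp. contains `∅`: PRF.) -/
def EXW_stmt : Prop := ∀ (m : ℕ) (A A' : LD) (M : ℕ → ℕ → ℕ) (J : ℕ) (Rk : Prop), Nx m A A' M J →
  (∀ j, j < A'.k → ∃ a : ℕ → ℤ, ∀ v, v < A.n → ∑ v' ∈ range A'.n, A'.c j v' * M v' v = ∑ i ∈ range A.k, a i * A.c i v) →
  (Rk → ∀ a b, a < A'.n → b < A'.n → ∃ N : ℕ → ℕ → ℤ, ∀ i j, i < A.n → j < A.n →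
    (M a i : ℤ) * M b j - M a j * M b i = ∑ r ∈ range A.k, (N i r * A.c r j - N j r * A.c r i)) →
  ∃ w, IsW Rk A A' M J w

/-- **FWA** (short-medium). uses: MKL, VWC, SWE, DLF, CVF. Shape of the words. Vertices: `wv = 0 D co 0`; heights: `hw (wv) = ∑ M h = h'` (VWC). Bands: `PdW.ht`, the height of the first word is `∑_(v ∈ W e false) h' v = h' e`; `Gd.shp`, `Gd.lett`. `S = Sj J`. `(e, t') ∈ w e' s'` for all `t' ∈ Sj J`: the letters of `D` are in all words. -/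
def FWA_stmt : Prop := ∀ (m : ℕ) (A A' : LD) (M : ℕ → ℕ → ℕ) (J : ℕ) (Rk : Prop) (w : ℕ → ℝ → List (ℕ × ℝ)), Nx m A A' M J →
  IsW Rk A A' M J w →
  (∀ e s, e < A'.l.N → s ∈ U → hw A.l.h (w e s) = A'.l.h e) ∧
  (∀ e s, e < A'.l.N → s ∈ U → ∀ a ∈ w e s, a.1 < A.l.N ∧ a.2 ∈ U) ∧
  (∀ e s, e < A'.n → w e s = w e 0) ∧
  (∀ e s, e < A'.l.N → s ∈ U → (w e s).head? = some (0, 0)) ∧
  (∀ e s, e < A'.l.N → s ∈ U → (w e s).getLast? = some (0, 0)) ∧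
  (∀ e, e < A'.n → ∀ a ∈ w e 0, a.1 < A.n ∨ a.2 ∈ Sj J) ∧
  (∀ e s, e < A'.l.N → s ∈ U → ∃ B x R, w e s = B ++ x :: R ∧ ∀ a ∈ B ++ R, a.1 < A.n ∨ a.2 ∈ Sj J) ∧
  ∀ e' s', e' < A'.l.N → s' ∈ U → ∀ e t', e < A.l.N → t' ∈ Sj J → (e, t') ∈ w e' s'

/-- **FWB** (short-medium). uses: FWA, MKL. Continuity and ends: `PdW.cts`, `PdW.at0`, `PdW.at1` (`w v 0 = wv ..` for vertices, `List.flatMap` congruence on the letters of `W e b`, which are `< n'`); vertices: constant, `W e b = [e]`. -/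
def FWB_stmt : Prop := ∀ (m : ℕ) (A A' : LD) (M : ℕ → ℕ → ℕ) (J : ℕ) (Rk : Prop) (w : ℕ → ℝ → List (ℕ × ℝ)), Nx m A A' M J →
  IsW Rk A A' M J w → ∀ Φ, Cmp A.l Φ →
  (∀ e i, e < A'.l.N → i < A'.l.h e → ContinuousOn (fun s => fw A.l.h Φ (w e s) i) U) ∧
  ∀ e (b : Bool) i, e < A'.l.N → i < A'.l.h e →
    fw A.l.h Φ (w e (if b then 1 else 0)) i = fw A.l.h Φ ((A'.l.W e b).flatMap fun v => w v 0) i

/-- **FWC** (short). uses: MKL. Every letter occurs: `PdW.vis` for the band `cb 0 0` of the level `A'` (`0 < n'`). -/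
def FWC_stmt : Prop := ∀ (m : ℕ) (A A' : LD) (M : ℕ → ℕ → ℕ) (J : ℕ) (Rk : Prop) (w : ℕ → ℝ → List (ℕ × ℝ)), Nx m A A' M J →
  IsW Rk A A' M J w → ∀ e t, e < A.l.N → t ∈ U → ∃ e' s', e' < A'.l.N ∧ s' ∈ U ∧ (e, t) ∈ w e' s'

/-- **FWD** (short-medium). uses: MKL, VWC, SWE, FWA. Sums over the words of the vertices: SWE with `cv (wv) = M v'` (VWC); `2 nvh ≤ 2 hw D ≤ (1/2)^m h' v'`, as `h' v' = ∑ M v' v h v ≥ Nb ≥ 2^(m+1) · 4 hw D` (`n > 0`, `h ≥ 1`). -/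
def FWD_stmt : Prop := ∀ (m : ℕ) (A A' : LD) (M : ℕ → ℕ → ℕ) (J : ℕ) (Rk : Prop) (w : ℕ → ℝ → List (ℕ × ℝ)), Nx m A A' M J →
  IsW Rk A A' M J w →
  (∀ v' (z : ℕ → ℤ), v' < A'.n →
    sw (fun e _ => ((A.l.W e false).map z).sum) (w v' 0) = ∑ v ∈ range A.n, (M v' v : ℤ) * z v) ∧
  ∀ v' (ς : ℕ → ℝ → ℝ), v' < A'.n → (∀ e s, e < A.l.N → s ∈ U → |ς e s| ≤ A.l.h e) →
    |sw ς (w v' 0) - ∑ v ∈ range A.n, (M v' v : ℝ) * ς v 0| ≤ 2 * hw A.l.h (Dl A.l.N J) ∧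
    (2 * hw A.l.h (Dl A.l.N J) : ℝ) ≤ (1 / 2) ^ m * A'.l.h v'

/-- **FWE** (medium). uses: FWA, FWD, SWE, MKL. The estimate `st2`. Vertices: `r = 0` (`W e false = [e]`), the difference is `0`. Band `e`, `W₀ = W e false`, `W₁ = W e true`, `p = |W₀| + |W₁|`, `S_i = ∑_(v ∈ W_i) sw ς (w v 0)`, `a v = ς v 0`, `|a v| ≤ h v`. SWE: `|sw ς (w e s) - ∑ cv a| ≤ 2 nvh ≤ 2 p hw D`. `Gd.nr`: `|∑ cv a - ((1-r) ∑ κ₀ a + r ∑ κ₁ a)| ≤ 2 cs ∑ h`. FWD, summed over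
`W_i`: `|S_i - ∑ κ_i a| ≤ |W_i| 2 hw D` (`κ_i v = ∑_(x ∈ W_i) M x v`). Together `≤ 4 p hw D + 2 cs ∑ h ≤ p (4 hw D + 2 cs ∑ h)`. And `h' e ≥ |W_i| Nb` for `i = 0, 1` (`h' e = ∑_(x ∈ W_i) h' x`, `h' x ≥ ∑ M x v h v ≥ Nb`), so `h' e ≥ p Nb/2 ≥ p 2^m (4 hw D + 2 cs ∑ h)`. -/
def FWE_stmt : Prop := ∀ (m : ℕ) (A A' : LD) (M : ℕ → ℕ → ℕ) (J : ℕ) (Rk : Prop) (w : ℕ → ℝ → List (ℕ × ℝ)), Nx m A A' M J →
  IsW Rk A A' M J w → ∀ e s (ς : ℕ → ℝ → ℝ), e < A'.l.N → s ∈ U → (∀ e s, e < A.l.N → s ∈ U → |ς e s| ≤ A.l.h e) →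
    ∃ r ∈ U, |sw ς (w e s) - ((1 - r) * ((A'.l.W e false).map fun v => sw ς (w v 0)).sum +
      r * ((A'.l.W e true).map fun v => sw ς (w v 0)).sum)| ≤ (1 / 2) ^ m * A'.l.h e

/-- **FWF** (short-medium). uses: MKL. Logarithms. For a band `e` take `Lam e` and `d` from `PdW.lg`, `nn' e = ∑_(i<N) d i nn i`; for a vertex `Lam v s = sw lam (w v 0)` (constant), `nn' v = 0`. `Lam e 0 = sw lam` of the concatenation of the words of the vertices of `W e false` `= ∑ Lam v 0` (`sw` of `flatMap`). For `e < n' + n' n'`: `nn' e = 0`: the terms with `i < n + n n` vanish as `d i = 0`,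
the others as `nn i = 0`. -/
def FWF_stmt : Prop := ∀ (m : ℕ) (A A' : LD) (M : ℕ → ℕ → ℕ) (J : ℕ) (Rk : Prop) (w : ℕ → ℝ → List (ℕ × ℝ)), Nx m A A' M J →
  IsW Rk A A' M J w → Rk → ∀ (lam : ℕ → ℝ → ℂ) (nn : ℕ → ℤ), IsLog A.l lam nn →
    (∀ e, A.n + A.n * A.n ≤ e → e < A.l.N → nn e = 0) →
    ∃ (Lam : ℕ → ℝ → ℂ) (nn' : ℕ → ℤ), IsLog A'.l Lam nn' ∧ (∀ e', e' < A'.n + A'.n * A'.n → nn' e' = 0) ∧
      (∀ v, v < A'.n → Lam v 0 = sw lam (w v 0)) ∧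
      ∀ e', e' < A'.l.N → ∀ s ∈ U, Complex.exp (Lam e' s) = Complex.exp (sw lam (w e' s))

/-- **CMN** (medium). uses: FWA, FWB, MKL. The families of floors of the next level. `Φ' e s i = fw h Φ (w e s) i`. `cts`: FWB. `vtx`: `w e s = w e 0`. `at0`, `at1`: FWB, and for a word `u` of vertices `< n'` and `i < ∑ h'`: `fw h Φ (u.flatMap fun v => w v 0) i = fw h' Φ' (vw u) i` (induction on `u`, `hw h (w v 0) = h' v`,
`fw_append_left`, `fw_append_right`). `fin`: the same finite set: for `i < hw h w` and valid letters `fw h Φ w i` is some `Φ a.1 a.2 j`, `j < h a.1` (induction). -/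
def CMN_stmt : Prop := ∀ (m : ℕ) (A A' : LD) (M : ℕ → ℕ → ℕ) (J : ℕ) (Rk : Prop) (w : ℕ → ℝ → List (ℕ × ℝ)), Nx m A A' M J →
  IsW Rk A A' M J w → ∀ Φ, Cmp A.l Φ → Cmp A'.l fun e s i => fw A.l.h Φ (w e s) i

/-- **STE** (medium, long). uses: STG, LAT, RK1, LTR, GLV, MKL, EMC, JEX, DLF, EXW, FWA, FWB, FWC, FWD, FWE, FWF, CMN. The step. `J` from JEX for `σ.FL` and `m`. STG for `(n, th)`, `x`, `N = Nb m σ.A J`: `(n', th', M)`. `h' v' = ∑ M v' v h v`; `∑ h' v' th' v' = ∑_v h v th v = g`. LAT: `(k', c')`. `A' = ⟨n', h', k', c'⟩`; `A'.Gl`: GLV (`h' > 0`: `M ≥ Nb ≥ 10`,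
`n > 0`; `g ∈ H'`). `Nx m σ.A A' M J`. EXW: hypotheses LTR and RK1 (`x = M a`, `y = M b` kill the relations: kill). `w`. `σ' = ⟨A', th', emb A'.l :: σ.FL.map ..⟩`. `IsSta (m + 1)`: `h' v' ≥ Nb ≥ m + 2`; `cmp`: EMC, CMN. `IsStep` with `S = Sj J`: FWA, ..., FWF. `dns`: for `t ∈ U` take the `t' ∈ Sj J` of DLF with `|t - t'| ≤ 1/J` and JEX; `st1`: FWD. -/
def STE_stmt : Prop := ∀ (H : Type) [AddCommGroup H] (P : H → Prop) (g : H), PVH.SOG P g → ∀ H' : AddSubgroup H, g ∈ H' →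
  (∀ (n : ℕ) (x : H), 1 ≤ n → n • x ∈ H' → x ∈ H') → ∀ (m : ℕ) (σ : Sta H), IsSta P g H' m σ → ∀ x, P x →
  ∃ (σ' : Sta H) (M : ℕ → ℕ → ℕ) (w : ℕ → ℝ → List (ℕ × ℝ)) (S : Set ℝ), IsSta P g H' (m + 1) σ' ∧
    IsStep (RkOne H') m σ σ' M w S ∧ ∃ c : ℕ → ℕ, x = ∑ v ∈ range σ'.A.n, c v • σ'.th v

/-- **STA** (short-medium). uses: GLV, MKL, EMC, LAT. The initial state: one vertex of height `1`, `th 0 = g`, `k`, `c` from LAT. `FL = [emb l]`. -/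
def STA_stmt : Prop := ∀ (H : Type) [AddCommGroup H] (P : H → Prop) (g : H), PVH.SOG P g → ∀ H' : AddSubgroup H, g ∈ H' →
  (∀ (n : ℕ) (x : H), 1 ≤ n → n • x ∈ H' → x ∈ H') → ∃ σ : Sta H, IsSta P g H' 0 σ

/-- **SQH** (medium). uses: STA, STE. The sequence of states. `{x // P x}` is countable and not empty (`g`): `e : ℕ → H` with `P (e i)`, every `x` with `P x` is some `e i` (`exists_surjective_nat`). Dependent choice (compare PVH.SEQ, `Pool/Agent/*/PV/SEQ.lean`): `σ m`, `M m`, `w m`, `S m` with STE for `x = e m`. -/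
def SQH_stmt : Prop := ∀ (H : Type) [AddCommGroup H] [Countable H] (P : H → Prop) (g : H), PVH.SOG P g →
  ∀ H' : AddSubgroup H, g ∈ H' → (∀ (n : ℕ) (x : H), 1 ≤ n → n • x ∈ H' → x ∈ H') →
  ∃ (σ : ℕ → Sta H) (M : ℕ → ℕ → ℕ → ℕ) (w : ℕ → ℕ → ℝ → List (ℕ × ℝ)) (S : ℕ → Set ℝ),
    (∀ m, IsSta P g H' m (σ m)) ∧ (∀ m, IsStep (RkOne H') m (σ m) (σ (m + 1)) (M m) (w m) (S m)) ∧
    ∀ x, P x → ∃ m, ∃ c : ℕ → ℕ, x = ∑ v ∈ range (σ m).A.n, c v • (σ m).th v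

/-- **BSS** (medium). uses: MKL, EMC. The band system `B.L m = (σ m).A.l`, `B.w = w`, `B.S = S`. `B.lp k d ∈ (σ (k + d)).FL`: induction on `d`: `d = 0`: `emb`; step: `IsStep.fl` (`B.lp k (d + 1)` is `fun e s i => fw .. (B.lp k d) (w (k + d) e s) i` by definition; `List.mem_cons`, `List.mem_map`). So `dns` (for `k + d = m`; the `lp` in the
axiom is evaluated at a letter of the level `m`). `cont`, `ends`: with `Φ = emb` (EMC; `B.st m = fw h emb (w m e s)`). `big`: MKL (3) with `m + 1`. The rest is literal. -/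
def BSS_stmt : Prop := ∀ (H : Type) [AddCommGroup H] (P : H → Prop) (g : H) (H' : AddSubgroup H) (Rk : Prop) (σ : ℕ → Sta H)
  (M : ℕ → ℕ → ℕ → ℕ) (w : ℕ → ℕ → ℝ → List (ℕ × ℝ)) (S : ℕ → Set ℝ), (∀ m, IsSta P g H' m (σ m)) →
  (∀ m, IsStep Rk m (σ m) (σ (m + 1)) (M m) (w m) (S m)) → IsBS ⟨fun m => (σ m).A.l, w, S⟩ M

/-- **THS** (short-medium). uses: MKL, BDN, BAS. The group data and the axioms for rank one. `B.L m = (σ m).A.l`; `unit`, `th_eq`, `kill`, `span` literal (`(σ m).A.l.h v = (σ m).A.h v` for vertices: MKL); `bnd`: BDN. `IsB1` with `G m = {e | n + n² ≤ e < N}`: `bnd` clear (`n ≤ n + n²`), `prm`, `bas`: BAS; `lft`: `IsStep.lft`. -/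
def THS_stmt : Prop := ∀ (H : Type) [AddCommGroup H] (P : H → Prop) (g : H) (H' : AddSubgroup H) (σ : ℕ → Sta H)
  (M : ℕ → ℕ → ℕ → ℕ) (w : ℕ → ℕ → ℝ → List (ℕ × ℝ)) (S : ℕ → Set ℝ), (∀ m, IsSta P g H' m (σ m)) →
  (∀ m, IsStep (RkOne H') m (σ m) (σ (m + 1)) (M m) (w m) (S m)) →
  (∀ x, P x → ∃ m, ∃ c : ℕ → ℕ, x = ∑ v ∈ range (σ m).A.n, c v • (σ m).th v) →
  IsTh ⟨fun m => (σ m).A.l, w, S⟩ M P g (fun m => (σ m).th) H' ∧ (RkOne H' → ∃ G, IsB1 ⟨fun m => (σ m).A.l, w, S⟩ G)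

end Pool.Agent.BND.EX
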